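import Pool.Agent.Q147.HideX

/-!
# MP_ec84ce_an: the relative hidden-set characterization of polyhedric convex sets
-/

namespace Pool.Agent.Results.MP_ec84ce_an.HiddenSetsRelative

universe u

/-- `C` hides `B`: the segment `conv {a, b}` meets `C` for all distinct points `a, b` of `B`. -/
def Hides {X : Type u} [AddCommGroup X] [Module ℝ X] (C B : Set X) : Prop :=
  ∀ a ∈ B, ∀ b ∈ B, a ≠ b → (convexHull ℝ {a, b} ∩ C).Nonempty

/-- `C` is polyhedric in `D'`: it is the intersection of finitely many sets `H i ⊆ D'` such that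
both `H i` and `D' \ H i` are convex. -/
def PolyhedricIn {X : Type u} [AddCommGroup X] [Module ℝ X] (C D' : Set X) : Prop :=
  ∃ (n : ℕ) (H : Fin n → Set X),
    (∀ i, H i ⊆ D' ∧ Convex ℝ (H i) ∧ Convex ℝ (D' \ H i)) ∧ C = ⋂ i, H i

/-- **Main theorem.** Let `X` be a real topological vector space whose topology is induced by a
complete metric, `C` a closed convex subset of `X` and `D ⊇ C` a convex set. Then `C` hides no
infinite subset of `D \ C` if and only if `C` is polyhedric in `D ∩ aff C`. -/
theorem result {X : Type u} [AddCommGroup X] [Module ℝ X] [TopologicalSpace X]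
    [IsTopologicalAddGroup X] [ContinuousSMul ℝ X] [TopologicalSpace.IsCompletelyMetrizableSpace X]
    (C D : Set X) (hC : IsClosed C) (hCc : Convex ℝ C) (hDc : Convex ℝ D) (hCD : C ⊆ D) :
    (¬ ∃ B : Set X, B ⊆ D \ C ∧ B.Infinite ∧ Hides C B) ↔
      PolyhedricIn C (D ∩ (affineSpan ℝ C : Set X)) := by
  have h := Pool.Agent.Q147.HideX.main C D hC hCc hDc hCD
  have h2 : ∀ B : Set X, Hides C B ↔
      ∀ a ∈ B, ∀ b ∈ B, a ≠ b → (segment ℝ a b ∩ C).Nonempty := by
    intro B
    unfold Hides
    simp only [convexHull_pair]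
  simp only [h2]
  exact h

end Pool.Agent.Results.MP_ec84ce_an.HiddenSetsRelative
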